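import Pool.Agent.Lib.MP_b5021c_nt.IfaceK3
import Pool.Agent.Lib.MP_b5021c_nt.K.H79.Lik

/-!
# Row IRE: irreducibility over the Eisenstein integers
-/

namespace Pool.Agent.MP_b5021c_nt.Ire

open Polynomial Pool.Agent.B5 Pool.Agent.MP_b5021c_nt.Lik
open scoped LaurentPolynomial

noncomputable section

/-! ### Width of a Laurent polynomial -/

section Width

variable {B : Type} [CommRing B] [IsDomain B]

/-- the width -/
def Wd (f : B[T;T⁻¹]) (m : ℕ) : Prop :=
  ∃ (n : ℤ) (g : B[X]), g.coeff 0 ≠ 0 ∧ f = LaurentPolynomial.T n * toLaurent g ∧ g.natDegree = m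

theorem wd_ex (f : B[T;T⁻¹]) (hf : f ≠ 0) : ∃ m, Wd f m := by
  obtain ⟨n, g, h1, h2⟩ := exists_normal f hf
  exact ⟨g.natDegree, n, g, h1, h2, rfl⟩

theorem wd_unique {f : B[T;T⁻¹]} {m m' : ℕ} (h : Wd f m) (h' : Wd f m') : m = m' := by
  obtain ⟨n, g, h1, h2, rfl⟩ := h
  obtain ⟨n', g', h1', h2', rfl⟩ := h'
  have h3 : (LaurentPolynomial.T (n - n') : B[T;T⁻¹]) * toLaurent g = toLaurent g' := by
    have h4 : (LaurentPolynomial.T n : B[T;T⁻¹]) * toLaurent g
        = LaurentPolynomial.T n' * toLaurent g' := by rw [← h2, ← h2']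
    rw [sub_eq_add_neg, add_comm, LaurentPolynomial.T_add, mul_assoc, h4, ← mul_assoc,
      ← LaurentPolynomial.T_add, neg_add_cancel, LaurentPolynomial.T_zero, one_mul]
  have h5 := normal_unique _ _ _ h1 h1' h3
  rw [h5, LaurentPolynomial.T_zero, one_mul] at h3
  rw [toLaurent_injective h3]

theorem wd_mul {f f' : B[T;T⁻¹]} {m m' : ℕ} (h : Wd f m) (h' : Wd f' m') : Wd (f * f') (m + m') := by
  obtain ⟨n, g, h1, h2, rfl⟩ := h
  obtain ⟨n', g', h1', h2', rfl⟩ := h'
  refine ⟨n + n', g * g', ?_, ?_, ?_⟩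
  · rw [mul_coeff_zero]; exact mul_ne_zero h1 h1'
  · rw [h2, h2', LaurentPolynomial.T_add, map_mul]; ring
  · refine natDegree_mul ?_ ?_
    · rintro rfl; exact h1 (coeff_zero 0)
    · rintro rfl; exact h1' (coeff_zero 0)

theorem wd_unit {f : B[T;T⁻¹]} (hf : IsUnit f) : Wd f 0 := by
  obtain ⟨v, hv⟩ := isUnit_iff_exists_inv.mp hf
  obtain ⟨m, hm⟩ := wd_ex f hf.ne_zero
  obtain ⟨m', hm'⟩ := wd_ex v (IsUnit.of_mul_eq_one f (by rw [mul_comm]; exact hv)).ne_zero
  have h1 : Wd (1 : B[T;T⁻¹]) 0 := ⟨0, 1, by simp, by simp, natDegree_one⟩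
  have h2 := wd_mul hm hm'
  rw [hv] at h2
  have h3 := wd_unique h2 h1
  have h4 : m = 0 := by omega
  rwa [h4] at hm

omit [IsDomain B] in
theorem map_toLaurent' {B' : Type} [CommRing B'] (s : B →+* B') (g : B[X]) :
    AddMonoidAlgebra.mapRingHom ℤ s (toLaurent g) = toLaurent (g.map s) := by
  induction g using Polynomial.induction_on' with
  | add p q hp hq => rw [map_add, map_add, hp, hq, Polynomial.map_add, map_add]
  | monomial n a =>
    rw [map_monomial, toLaurent_C_mul_T, toLaurent_C_mul_T, ← LaurentPolynomial.single_eq_C_mul_T,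
      ← LaurentPolynomial.single_eq_C_mul_T]
    exact AddMonoidAlgebra.mapRingHom_single _ _ _

/-- `s` on the coefficients -/
def mapL (s : B →+* B) : B[T;T⁻¹] →+* B[T;T⁻¹] := AddMonoidAlgebra.mapRingHom ℤ s

omit [IsDomain B] in
theorem wd_map {f : B[T;T⁻¹]} {m : ℕ} (s : B →+* B) (hs : Function.Injective s) (h : Wd f m) :
    Wd (mapL s f) m := by
  unfold mapL
  obtain ⟨n, g, h1, h2, rfl⟩ := h
  refine ⟨n, g.map s, ?_, ?_, natDegree_map_eq_of_injective hs g⟩
  · rw [coeff_map]
    exact (map_ne_zero_iff s hs).mpr h1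
  · rw [h2, map_mul, map_toLaurent']
    congr 1
    have : (LaurentPolynomial.T n : B[T;T⁻¹]) = AddMonoidAlgebra.single n 1 := rfl
    rw [this]
    exact (AddMonoidAlgebra.mapRingHom_single _ _ _).trans (by rw [map_one])

end Width

/-! ### Unique factorisation -/

section UFD

/-- The group algebra in one more port is a ring of Laurent polynomials. -/
def psiO (O : Type) [CommRing O] (ι : Type) :
    AO O (Option ι → ℤ) ≃+* LaurentPolynomial (AO O (ι → ℤ)) :=
  (AddMonoidAlgebra.mapDomainRingEquiv (RO O) spl).trans AddMonoidAlgebra.curryRingEquiv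

theorem ufd_laurent (B : Type) [CommRing B] [IsDomain B] [UniqueFactorizationMonoid B] :
    UniqueFactorizationMonoid (LaurentPolynomial B) :=
  UniqueFactorizationMonoid.of_isLocalization (Submonoid.powers (Polynomial.X : Polynomial B))
    (LaurentPolynomial B)

theorem ufd_equiv {A' B' : Type} [CommRing A'] [CommRing B'] [IsDomain A'] [IsDomain B']
    (e : A' ≃+* B') (h : UniqueFactorizationMonoid A') : UniqueFactorizationMonoid B' :=
  MulEquiv.uniqueFactorizationMonoid e.toMulEquiv h

theorem dom (O : Type) [CommRing O] [IsDomain O] (ι : Type) : IsDomain (AO O (ι → ℤ)) := by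
  have : IsAddTorsionFree (ι → ℤ) := inferInstance
  infer_instance

theorem ufd (O : Type) [CommRing O] [IsDomain O] [IsPrincipalIdealRing O] (ι : Type) [Finite ι] :
    UniqueFactorizationMonoid (AO O (ι → ℤ)) := by
  refine Finite.induction_empty_option (P := fun ι => UniqueFactorizationMonoid (AO O (ι → ℤ)))
    ?_ ?_ ?_ ι
  · intro α β e h
    have := dom O α
    have := dom O β
    refine ufd_equiv ?_ h
    exact AddMonoidAlgebra.mapDomainRingEquiv (RO O)
      ((LinearEquiv.funCongrLeft ℤ ℤ e.symm).toAddEquiv)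
  · have := dom O PEmpty
    exact ufd_equiv (AddMonoidAlgebra.uniqueRingEquiv (R := RO O) (PEmpty → ℤ)).symm inferInstance
  · intro α _ h
    have := dom O α
    have := dom O (Option α)
    exact ufd_equiv (psiO O α).symm (ufd_laurent _)

end UFD

/-! ### Conjugation and base change -/

section Conj

variable {L : Type} [AddCommGroup L]

/-- base change -/
def bc : A L →+* AO Eis L :=
  AddMonoidAlgebra.mapRingHom L (AddMonoidAlgebra.mapRingHom ℤ (Int.castRingHom Eis))

/-- conjugation of the coefficients -/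
def sg : AO Eis L →+* AO Eis L :=
  AddMonoidAlgebra.mapRingHom L (AddMonoidAlgebra.mapRingHom ℤ (Eis.conj : Eis ≃+* Eis).toRingHom)

theorem bc_coeff (F : A L) (a : L) (n : ℤ) : ((bc F).coeff a).coeff n = (((F.coeff a).coeff n : ℤ) : Eis) := by
  simp [bc]

theorem sg_coeff (F : AO Eis L) (a : L) (n : ℤ) :
    ((sg F).coeff a).coeff n = Eis.conj ((F.coeff a).coeff n) := by
  simp [sg]

theorem ext2 {O : Type} [CommRing O] {F G : AO O L} (h : ∀ a n, (F.coeff a).coeff n = (G.coeff a).coeff n) :
    F = G := by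
  apply AddMonoidAlgebra.ext
  apply Finsupp.ext
  intro a
  apply AddMonoidAlgebra.ext
  apply Finsupp.ext
  intro n
  exact h a n

theorem cast_inj : Function.Injective (Int.cast : ℤ → Eis) := by
  intro a b h
  have h1 := congrArg QuadraticAlgebra.re h
  simpa using h1

theorem bc_inj : Function.Injective (bc : A L →+* AO Eis L) := by
  intro F G h
  apply ext2
  intro a n
  have h1 : ((bc F).coeff a).coeff n = ((bc G).coeff a).coeff n := by rw [h]
  rw [bc_coeff, bc_coeff] at h1
  exact cast_inj h1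

theorem sg_sg (F : AO Eis L) : sg (sg F) = F := by
  apply ext2
  intro a n
  rw [sg_coeff, sg_coeff, Eis.conj_conj]

theorem sg_inj : Function.Injective (sg : AO Eis L →+* AO Eis L) :=
  fun F G h => by rw [← sg_sg F, h, sg_sg]

theorem sg_bc (F : A L) : sg (bc F) = bc F := by
  apply ext2
  intro a n
  rw [sg_coeff, bc_coeff, map_intCast]

theorem conj_fix (x : Eis) (h : Eis.conj x = x) : x = ((x.re : ℤ) : Eis) := by
  have h1 := congrArg QuadraticAlgebra.im h
  rw [Eis.conj_apply] at h1
  simp at h1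
  have h2 : x.im = 0 := by omega
  apply QuadraticAlgebra.ext
  · simp
  · simp [h2]

/-- real part of the coefficients -/
def reR : RO Eis →+ RO ℤ where
  toFun c := AddMonoidAlgebra.ofCoeff (c.coeff.mapRange (fun x => x.re) rfl)
  map_zero' := by
    apply AddMonoidAlgebra.ext
    apply Finsupp.ext
    intro n
    simp
  map_add' c d := by
    apply AddMonoidAlgebra.ext
    apply Finsupp.ext
    intro n
    simp

theorem reR_coeff (c : RO Eis) (n : ℤ) : (reR c).coeff n = (c.coeff n).re := rfl

theorem descend (F : AO Eis L) (h : sg F = F) : ∃ f : A L, bc f = F := by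
  refine ⟨AddMonoidAlgebra.ofCoeff (F.coeff.mapRange reR (map_zero _)), ?_⟩
  apply ext2
  intro a n
  rw [bc_coeff]
  have h1 : ((AddMonoidAlgebra.ofCoeff (F.coeff.mapRange reR (map_zero _)) : A L).coeff a).coeff n
      = ((F.coeff a).coeff n).re := rfl
  rw [h1]
  refine (conj_fix _ ?_).symm
  rw [← sg_coeff, h]

end Conj

/-! ### Grading by a functional -/

section Grade

variable {L : Type} [AddCommGroup L]

/-- `w^a` is sent to `w^a T^(lam a)` -/
def tau (O : Type) [CommRing O] (lam : L →+ ℤ) : AO O L →+* LaurentPolynomial (AO O L) :=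
  (AddMonoidAlgebra.curryRingEquiv (R := RO O) (M := ℤ) (N := L)).toRingHom.comp
    (AddMonoidAlgebra.mapDomainRingHom (RO O) (lam.prod (AddMonoidHom.id L)))

theorem tau_single (O : Type) [CommRing O] (lam : L →+ ℤ) (a : L) (c : RO O) :
    tau O lam (AddMonoidAlgebra.single a c)
      = AddMonoidAlgebra.single (lam a) (AddMonoidAlgebra.single a c) := by
  unfold tau
  rw [RingHom.comp_apply]
  have h : (AddMonoidAlgebra.mapDomainRingHom (RO O) (lam.prod (AddMonoidHom.id L)))
      (AddMonoidAlgebra.single a c) = AddMonoidAlgebra.single (lam a, a) c := by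
    simp
  rw [h]
  exact AddMonoidAlgebra.curryRingEquiv_single _ _ _

theorem tau_sg (lam : L →+ ℤ) (F : AO Eis L) :
    tau Eis lam (sg F) = mapL sg (tau Eis lam F) := by
  have h : (tau Eis lam).comp sg = (mapL sg).comp (tau Eis lam) := by
    unfold mapL
    apply AddMonoidAlgebra.ringHom_ext
    · intro r
      rw [RingHom.comp_apply, RingHom.comp_apply, tau_single]
      simp only [sg, AddMonoidAlgebra.mapRingHom_single, tau_single]
    · intro a
      rw [RingHom.comp_apply, RingHom.comp_apply, tau_single]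
      simp only [sg, AddMonoidAlgebra.mapRingHom_single, tau_single]
  exact congrArg (fun f => f F) h

end Grade

section Main

variable {ι : Type} [Fintype ι] [DecidableEq ι]

theorem bc_toA (D : Finset ι → ℤ[X]) : bc (toA D) = toE D := by
  unfold toA toE bc
  rw [map_sum]
  refine Finset.sum_congr rfl fun S _ => ?_
  rw [AddMonoidAlgebra.mapRingHom_single, map_toLaurent']

omit [Fintype ι] in
theorem ind_inj : Function.Injective (ind : Finset ι → ι → ℤ) := by
  intro S T h
  ext i
  have h1 := congrFun h i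
  simp only [ind] at h1
  by_cases h2 : i ∈ S <;> by_cases h3 : i ∈ T <;> simp [h2, h3] at h1 ⊢

/-- all ports occur -/
theorem occ (D : Finset ι → ℤ[X]) (h : SpanK D) (i : ι) : ∃ S, i ∈ S ∧ D S ≠ 0 := by
  by_contra hc
  push Not at hc
  have h1 : Submodule.span ℚ {v : ι → ℚ | ∃ S : Finset ι, (D S).coeff 0 ≠ 0
      ∧ v = fun i => if i ∈ S then 1 else 0} ≤ LinearMap.ker (LinearMap.proj (R := ℚ) (φ := fun _ => ℚ) i) := by
    rw [Submodule.span_le]
    rintro v ⟨S, hS, rfl⟩
    rw [SetLike.mem_coe, LinearMap.mem_ker, LinearMap.proj_apply]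
    rw [if_neg]
    intro hi
    apply hS
    rw [hc S hi, coeff_zero]
  rw [h] at h1
  have h2 : (fun _ => 1 : ι → ℚ) ∈ LinearMap.ker (LinearMap.proj (R := ℚ) (φ := fun _ => ℚ) i) :=
    h1 Submodule.mem_top
  rw [LinearMap.mem_ker, LinearMap.proj_apply] at h2
  exact one_ne_zero h2

theorem wd_toE (D : Finset ι → ℤ[X]) (i : ι) (h0 : D ∅ ≠ 0) (hi : ∃ S, i ∈ S ∧ D S ≠ 0) :
    Wd (tau Eis (Pi.evalAddMonoidHom (fun _ : ι => ℤ) i) (toE D)) 1 := by
  have hdom := dom Eis ι
  set c : Finset ι → RO Eis := fun S => toLaurent ((D S).map (Int.castRingHom Eis)) with hc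
  set d : AO Eis (ι → ℤ) := ∑ S : Finset ι, if i ∈ S then 0 else AddMonoidAlgebra.single (ind S) (c S)
    with hd
  set e : AO Eis (ι → ℤ) := ∑ S : Finset ι, if i ∈ S then AddMonoidAlgebra.single (ind S) (c S) else 0
    with he
  have hcne : ∀ S, D S ≠ 0 → c S ≠ 0 := by
    intro S hS
    rw [hc]
    dsimp only
    rw [toLaurent_ne_zero]
    exact (Polynomial.map_ne_zero_iff (f := Int.castRingHom Eis) cast_inj).mpr hS
  have hcoeff : ∀ (f : Finset ι → RO Eis) (T : Finset ι),
      (∑ S : Finset ι, (AddMonoidAlgebra.single (ind S) (f S) : AO Eis (ι → ℤ))).coeff (ind T) = f T := by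
    intro f T
    rw [AddMonoidAlgebra.coeff_sum, Finsupp.finsetSum_apply, Finset.sum_eq_single T]
    · rw [AddMonoidAlgebra.coeff_single, Finsupp.single_eq_same]
    · intro S _ hST
      rw [AddMonoidAlgebra.coeff_single, Finsupp.single_eq_of_ne]
      exact fun h => hST (ind_inj h).symm
    · intro h; exact absurd (Finset.mem_univ T) h
  have hd' : d = ∑ S : Finset ι, AddMonoidAlgebra.single (ind S) (if i ∈ S then 0 else c S) := by
    rw [hd]
    refine Finset.sum_congr rfl fun S _ => ?_
    split_ifs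
    · rw [AddMonoidAlgebra.single_zero]
    · rfl
  have he' : e = ∑ S : Finset ι, AddMonoidAlgebra.single (ind S) (if i ∈ S then c S else 0) := by
    rw [he]
    refine Finset.sum_congr rfl fun S _ => ?_
    split_ifs
    · rfl
    · rw [AddMonoidAlgebra.single_zero]
  have hd0 : d ≠ 0 := by
    intro h
    have h1 := hcoeff (fun S => if i ∈ S then 0 else c S) ∅
    rw [← hd', h, if_neg (Finset.notMem_empty i)] at h1
    exact hcne ∅ h0 h1.symm
  have he0 : e ≠ 0 := by
    intro h
    obtain ⟨T, hT, hDT⟩ := hi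
    have h1 := hcoeff (fun S => if i ∈ S then c S else 0) T
    rw [← he', h, if_pos hT] at h1
    exact hcne T hDT h1.symm
  have key : tau Eis (Pi.evalAddMonoidHom (fun _ : ι => ℤ) i) (toE D)
      = LaurentPolynomial.C d + LaurentPolynomial.C e * LaurentPolynomial.T 1 := by
    unfold toE
    rw [map_sum, hd, he, map_sum, map_sum, Finset.sum_mul, ← Finset.sum_add_distrib]
    refine Finset.sum_congr rfl fun S _ => ?_
    rw [tau_single]
    have h2 : (Pi.evalAddMonoidHom (fun _ : ι => ℤ) i) (ind S) = if i ∈ S then 1 else 0 := rfl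
    rw [h2]
    by_cases hS : i ∈ S
    · rw [if_pos hS, if_pos hS, if_pos hS, map_zero, zero_add, ← LaurentPolynomial.single_eq_C_mul_T]
    · rw [if_neg hS, if_neg hS, if_neg hS, map_zero, zero_mul, add_zero]
      rfl
  refine ⟨0, C e * X + C d, ?_, ?_, natDegree_linear he0⟩
  · simpa using hd0
  · rw [key, LaurentPolynomial.T_zero, one_mul, map_add, map_mul, toLaurent_C, toLaurent_C, toLaurent_X]
    ring

end Main

theorem ire (_ : TceS) : IreS := by
  intro ι _ _ _ D θ hD
  obtain ⟨i⟩ := (inferInstance : Nonempty ι)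
  have hdomE := dom Eis ι
  have hdomZ := dom ℤ ι
  have hufd := ufd ℤ ι
  have h0 : D ∅ ≠ 0 := by
    intro h
    have h1 := hD.one.2.1
    rw [h, coeff_zero] at h1
    exact zero_ne_one h1
  set lam := Pi.evalAddMonoidHom (fun _ : ι => ℤ) i with hlam
  have hw : Wd (tau Eis lam (toE D)) 1 := wd_toE D i h0 (occ D hD.spn i)
  have hne : toE D ≠ 0 := by
    intro h
    obtain ⟨n, g, h1, h2, h3⟩ := hw
    rw [h, map_zero] at h2
    have h4 : (toLaurent g : LaurentPolynomial (AO Eis (ι → ℤ))) = 0 := by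
      have h5 : (LaurentPolynomial.T (-n) : LaurentPolynomial (AO Eis (ι → ℤ)))
          * (LaurentPolynomial.T n * toLaurent g) = toLaurent g := by
        rw [← mul_assoc, ← LaurentPolynomial.T_add, neg_add_cancel, LaurentPolynomial.T_zero, one_mul]
      rw [← h5, ← h2, mul_zero]
    rw [toLaurent_eq_zero] at h4
    rw [h4, coeff_zero] at h1
    exact h1 rfl
  have hpr : Prime (toA D) := UniqueFactorizationMonoid.irreducible_iff_prime.mp hD.irr
  constructor
  · intro hu
    have h1 := wd_unit (hu.map (tau Eis lam))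
    exact absurd (wd_unique h1 hw) zero_ne_one
  · intro F H hFH
    by_contra hc
    rw [not_or] at hc
    have hF0 : F ≠ 0 := by
      rintro rfl
      rw [zero_mul] at hFH
      exact hne hFH
    have hH0 : H ≠ 0 := by
      rintro rfl
      rw [mul_zero] at hFH
      exact hne hFH
    obtain ⟨f, hf⟩ := descend (F * sg F) (by rw [map_mul, sg_sg, mul_comm])
    obtain ⟨h, hh⟩ := descend (H * sg H) (by rw [map_mul, sg_sg, mul_comm])
    have hfh : f * h = toA D ^ 2 := by
      apply bc_inj
      rw [map_mul, hf, hh, map_pow, bc_toA]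
      have h1 : sg (toE D) = toE D := by rw [← bc_toA, sg_bc]
      calc F * sg F * (H * sg H) = (F * H) * (sg F * sg H) := by ring
        _ = toE D ^ 2 := by rw [← map_mul, ← hFH, h1, sq]
    have hfd : f ∣ toA D ^ 2 := ⟨h, hfh.symm⟩
    obtain ⟨k, hk2, hk⟩ := (dvd_prime_pow hpr 2).mp hfd
    have hunitF : ¬ IsUnit f := by
      intro hu
      apply hc.1
      have h1 : IsUnit (F * sg F) := by rw [← hf]; exact hu.map bc
      exact isUnit_of_mul_isUnit_left h1
    have hunitH : ¬ IsUnit h := by
      intro hu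
      apply hc.2
      have h1 : IsUnit (H * sg H) := by rw [← hh]; exact hu.map bc
      exact isUnit_of_mul_isUnit_left h1
    have hk1 : k = 1 := by
      interval_cases k
      · exfalso
        rw [pow_zero] at hk
        exact hunitF (hk.symm.isUnit isUnit_one)
      · rfl
      · exfalso
        apply hunitH
        obtain ⟨u, hu⟩ := hk
        have h1 : f * h = f * (u : A (ι → ℤ)) := by rw [hfh, hu]
        have hf0 : f ≠ 0 := by
          rintro rfl
          rw [map_zero] at hf
          have h2 : sg F ≠ 0 := (map_ne_zero_iff sg sg_inj).mpr hF0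
          exact mul_ne_zero hF0 h2 hf.symm
        rw [mul_left_cancel₀ hf0 h1]
        exact u.isUnit
    rw [hk1, pow_one] at hk
    obtain ⟨u, hu⟩ := hk
    have h1 : F * sg F * bc (u : A (ι → ℤ)) = toE D := by
      rw [← hf, ← map_mul, hu, bc_toA]
    have h2 : tau Eis lam F ≠ 0 := by
      intro h3
      have h4 : tau Eis lam (toE D) = 0 := by rw [hFH, map_mul, h3, zero_mul]
      obtain ⟨n, g, h5, h6, h7⟩ := hw
      rw [h4] at h6
      have h8 : (toLaurent g : LaurentPolynomial (AO Eis (ι → ℤ))) = 0 := by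
        have h9 : (LaurentPolynomial.T (-n) : LaurentPolynomial (AO Eis (ι → ℤ)))
            * (LaurentPolynomial.T n * toLaurent g) = toLaurent g := by
          rw [← mul_assoc, ← LaurentPolynomial.T_add, neg_add_cancel, LaurentPolynomial.T_zero, one_mul]
        rw [← h9, ← h6, mul_zero]
      rw [toLaurent_eq_zero] at h8
      rw [h8, coeff_zero] at h5
      exact h5 rfl
    obtain ⟨m, hm⟩ := wd_ex _ h2
    have hm9 := wd_map sg sg_inj hm
    have hm' : Wd (tau Eis lam (sg F)) m := by
      rw [← tau_sg] at hm9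
      exact hm9
    have h3 := wd_mul (wd_mul hm hm') (wd_unit ((u.isUnit.map bc).map (tau Eis lam)))
    rw [← map_mul, ← map_mul, h1] at h3
    have h4 := wd_unique h3 hw
    omega

end

end Pool.Agent.MP_b5021c_nt.Ire
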