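import Pool.Agent.Lib.MP_b5021c_nt.IfaceK2

namespace Pool.Agent.MP_b5021c_nt.H50

open Polynomial Filter Topology Pool.Agent.B5

noncomputable section

theorem toLaurent_reflect (N : ℕ) (p : ℤ[X]) (hp : p.natDegree ≤ N) :
    Polynomial.toLaurent (p.reflect N) =
      LaurentPolynomial.invert (Polynomial.toLaurent p) * LaurentPolynomial.T (N : ℤ) := by
  refine Polynomial.induction_with_natDegree_le
    (fun p => Polynomial.toLaurent (p.reflect N) =
      LaurentPolynomial.invert (Polynomial.toLaurent p) * LaurentPolynomial.T (N : ℤ)) N ?_ ?_ ?_ p hp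
  · simp
  · intro n r _ hn
    rw [Polynomial.reflect_C_mul_X_pow, Polynomial.revAt_le hn, Polynomial.toLaurent_C_mul_X_pow,
      Polynomial.toLaurent_C_mul_X_pow, map_mul, LaurentPolynomial.invert_C,
      LaurentPolynomial.invert_T, mul_assoc, ← LaurentPolynomial.T_add]
    congr 2
    push_cast [hn]
    ring
  · intro f g _ _ hf hg
    rw [Polynomial.reflect_add, map_add, map_add, map_add, add_mul, hf, hg]

theorem sharp_single' {L : Type} [AddCommGroup L] (a : L) (q : R) :
    sharp (AddMonoidAlgebra.single a q : A L) =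
      AddMonoidAlgebra.single (-a) (LaurentPolynomial.invert q) := by
  simp [sharp, rsh_int]

theorem neg_ind_add {ι : Type} [Fintype ι] [DecidableEq ι] (S : Finset ι) :
    -(ind S) + (fun _ => 1 : ι → ℤ) = ind Sᶜ := by
  funext i
  by_cases h : i ∈ S <;> simp [ind, h]

/-- The monomial unit `ε z^N w^(1..1)`. -/
def mu {ι : Type} (ε : ℤ) (N : ℕ) (h : ε * ε = 1) : (A (ι → ℤ))ˣ where
  val := AddMonoidAlgebra.single (fun _ => 1) (LaurentPolynomial.C ε * LaurentPolynomial.T (N : ℤ))
  inv := AddMonoidAlgebra.single (fun _ => -1) (LaurentPolynomial.C ε * LaurentPolynomial.T (-(N : ℤ)))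
  val_inv := by
    rw [AddMonoidAlgebra.single_mul_single, AddMonoidAlgebra.one_def]
    congr 1
    rw [mul_mul_mul_comm, ← map_mul, h, ← LaurentPolynomial.T_add]; simp
  inv_val := by
    rw [AddMonoidAlgebra.single_mul_single, AddMonoidAlgebra.one_def]
    congr 1
    rw [mul_mul_mul_comm, ← map_mul, h, ← LaurentPolynomial.T_add]; simp

theorem unk : UnkS := by
  intro ι _ _ D hD
  obtain ⟨N, ε, hε, hdeg, hD⟩ := hD
  have hεε : ε * ε = 1 := by rcases hε with h | h <;> simp [h]
  refine ⟨mu ε N hεε, ?_⟩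
  change sharp (toA D) * AddMonoidAlgebra.single (fun _ => 1)
    (LaurentPolynomial.C ε * LaurentPolynomial.T (N : ℤ)) = toA D
  unfold toA
  rw [map_sum, Finset.sum_mul, ← Equiv.sum_comp (compl_involutive (α := Finset ι)).toPerm]
  refine Finset.sum_congr rfl fun S _ => ?_
  have hS : ((compl_involutive (α := Finset ι)).toPerm) S = Sᶜ := rfl
  rw [hS, sharp_single', AddMonoidAlgebra.single_mul_single, neg_ind_add, compl_compl]
  congr 1
  have h1 := hD Sᶜ
  rw [compl_compl] at h1
  rw [h1, map_mul, Polynomial.toLaurent_C, toLaurent_reflect N _ (hdeg _)]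
  ring

end

end Pool.Agent.MP_b5021c_nt.H50
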